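import Pool.Agent.Helper24.MD.EndN
import Mathlib.Combinatorics.Additive.PluenneckeRuzsa

/-!
MP_120218, project MD, part (3): sums alone expand for sets of integers with at most `C log |A|` primes,
for every constant `C`.

`g_1 A + .. + g_j A` is contained in `(g_1 + .. + g_j) A`, so `main2` with the first primes as dilates gives
`|kA| ≥ c |A| ^ b`; the Pluennecke-Ruzsa inequality gives `|A + A| ≥ c |A| ^ (1 + d)`.
-/

set_option autoImplicit false

namespace Pool.Agent.Helper88.ME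

open Finset
open scoped Pointwise

/-- the `k`-fold sums -/
def ksum (k : ℕ) (A : Finset ℤ) : Finset ℤ :=
  (Fintype.piFinset (fun _ : Fin k => A)).image (fun f : Fin k → ℤ => ∑ i, f i)

theorem ksum_eq (k : ℕ) (A : Finset ℤ) : ksum k A = k • A := by
  ext x
  rw [Finset.mem_nsmul]
  constructor
  · intro h
    obtain ⟨f, hf, rfl⟩ := Finset.mem_image.1 h
    rw [Fintype.mem_piFinset] at hf
    refine ⟨fun i => ⟨f i, hf i⟩, ?_⟩
    rw [List.sum_ofFn]
  · rintro ⟨f, rfl⟩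
    refine Finset.mem_image.2 ⟨fun i => (f i : ℤ), ?_, ?_⟩
    · rw [Fintype.mem_piFinset]
      exact fun i => (f i).2
    · rw [List.sum_ofFn]

theorem sum_mem_nsmul {ι : Type*} (s : Finset ι) (g : ι → ℕ) (a : ι → ℤ) (A : Finset ℤ)
    (h : ∀ i ∈ s, a i ∈ A) : ∑ i ∈ s, (g i : ℤ) * a i ∈ (∑ i ∈ s, g i) • A := by
  classical
  induction s using Finset.induction_on with
  | empty => simp
  | insert i s hi ih =>
    rw [Finset.sum_insert hi, Finset.sum_insert hi, add_nsmul]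
    refine Finset.add_mem_add ?_ (ih fun j hj => h j (Finset.mem_insert_of_mem hj))
    have := Finset.nsmul_mem_nsmul (n := g i) (h i (Finset.mem_insert_self i s))
    rwa [nsmul_eq_mul] at this

/-- sums of dilates lie in long sumsets -/
theorem dil_le {j : ℕ} (g : Fin j → ℕ) (Y : Finset ℕ) (M : ℕ) (hg : ∀ i, g i ≤ M)
    (hY : Y.Nonempty) :
    (((Fintype.piFinset (fun _ : Fin j => Y)).image
      (fun f : Fin j → ℕ => ∑ i, ((g i : ℕ) : ℤ) * ((f i : ℕ) : ℤ))).card) ≤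
    (ksum (j * M) (Y.image (fun y : ℕ => (y : ℤ)))).card := by
  have h1 : (((Fintype.piFinset (fun _ : Fin j => Y)).image
      (fun f : Fin j → ℕ => ∑ i, ((g i : ℕ) : ℤ) * ((f i : ℕ) : ℤ)))) ⊆
      (∑ i, g i) • (Y.image (fun y : ℕ => (y : ℤ))) := by
    intro x hx
    obtain ⟨f, hf, rfl⟩ := Finset.mem_image.1 hx
    rw [Fintype.mem_piFinset] at hf
    exact sum_mem_nsmul Finset.univ g (fun i => (f i : ℤ)) _
      fun i _ => Finset.mem_image.2 ⟨f i, hf i, rfl⟩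
  have h2 : ∑ i, g i ≤ j * M := by
    calc ∑ i, g i ≤ ∑ _i : Fin j, M := Finset.sum_le_sum fun i _ => hg i
      _ = j * M := by simp
  rw [ksum_eq]
  exact le_trans (Finset.card_le_card h1) ((hY.image _).card_nsmul_mono h2)

/-- a set of `m` primes, pairwise coprime -/
theorem exists_G (m : ℕ) : ∃ G : Finset ℕ, m ≤ G.card ∧
    (∀ g ∈ G, ∀ g' ∈ G, g ≠ g' → Nat.Coprime g g') ∧
    ∀ p : ℕ, p.Prime → p ∉ Finset.range (G.sup id + 1) → ∀ g ∈ G, ∀ g' ∈ G,
      ((g : ℕ) : ZMod p) = ((g' : ℕ) : ZMod p) → g = g' := by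
  obtain ⟨G, hG, hc⟩ := Nat.infinite_setOfPred_prime.exists_subset_card_eq m
  refine ⟨G, hc.ge, fun g hg g' hg' hne => (Nat.coprime_primes (hG hg) (hG hg')).2 hne, ?_⟩
  intro p _ hpW g hg g' hg' h
  have hlt : ∀ g ∈ G, g < p := by
    intro g hg
    have h1 : g ≤ G.sup id := Finset.le_sup (f := id) hg
    rw [Finset.mem_range, not_lt] at hpW
    omega
  have h2 := (ZMod.natCast_eq_natCast_iff' g g' p).1 h
  rwa [Nat.mod_eq_of_lt (hlt g hg), Nat.mod_eq_of_lt (hlt g' hg')] at h2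

/-- logarithmic form for positive integers -/
theorem expandN (b C : ℝ) (hC : 0 < C) : ∃ k : ℕ, ∃ K : ℝ, 0 ≤ K ∧
    ∀ Y : Finset ℕ, Y.Nonempty → (∀ y ∈ Y, 0 < y) → ∀ T : Finset ℕ,
      (∀ p, p.Prime → Pool.Agent.Helper24.MD.NC Y p → p ∈ T) →
      (T.card : ℝ) ≤ C * (1 + Real.log (Y.card : ℝ)) →
      b * Real.log (Y.card : ℝ) - K ≤
        Real.log ((ksum k (Y.image (fun y : ℕ => (y : ℤ)))).card : ℝ) := by
  obtain ⟨j, hj⟩ := exists_nat_ge (b + 2)
  obtain ⟨m, -, K, hK, hmain⟩ := Pool.Agent.Helper24.MD.main2 j 1 C one_pos hC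
  obtain ⟨G, hGm, hGc, hGW⟩ := exists_G m
  refine ⟨j * G.sup id, 1 + K * (1 + ((G.sup id + 1 : ℕ) : ℝ)), by positivity, ?_⟩
  intro Y hY hpos T hT hTC
  obtain ⟨g, hg, hb⟩ := hmain G hGm hGc (Finset.range (G.sup id + 1)) hGW Y hY hpos
  have hb' := hb T hT
  have hq : (Pool.Agent.Helper24.MD.qq (Finset.range (G.sup id + 1)) Y : ℝ) ≤
      ((G.sup id + 1 : ℕ) : ℝ) := by
    have h0 : Pool.Agent.Helper24.MD.qq (Finset.range (G.sup id + 1)) Y ≤
        (Finset.range (G.sup id + 1)).card := by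
      classical
      exact Finset.card_le_card (Finset.filter_subset _ _)
    rw [Finset.card_range] at h0
    exact_mod_cast h0
  have hcard := dil_le g Y (G.sup id) (fun i => Finset.le_sup (f := id) (hg i)) hY
  have hne : (((Fintype.piFinset (fun _ : Fin j => Y)).image
      (fun f : Fin j → ℕ => ∑ i, ((g i : ℕ) : ℤ) * ((f i : ℕ) : ℤ)))).Nonempty := by
    refine Finset.Nonempty.image ?_ _
    obtain ⟨y, hy⟩ := hY
    exact ⟨fun _ => y, Fintype.mem_piFinset.2 fun _ => hy⟩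
  have hlog : Real.log ((((Fintype.piFinset (fun _ : Fin j => Y)).image
      (fun f : Fin j → ℕ => ∑ i, ((g i : ℕ) : ℤ) * ((f i : ℕ) : ℤ))).card : ℕ) : ℝ) ≤
      Real.log ((ksum (j * G.sup id) (Y.image (fun y : ℕ => (y : ℤ)))).card : ℝ) := by
    apply Real.log_le_log
    · exact_mod_cast Finset.card_pos.2 hne
    · exact_mod_cast hcard
  have hL : 0 ≤ Real.log (Y.card : ℝ) :=
    Real.log_nonneg (by exact_mod_cast Nat.one_le_iff_ne_zero.2 (Finset.card_ne_zero.2 hY))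
  have h1 : 1 / C * (T.card : ℝ) ≤ 1 + Real.log (Y.card : ℝ) := by
    rw [one_div, inv_mul_le_iff₀ hC]
    exact hTC
  have h2 : K * (1 + (Pool.Agent.Helper24.MD.qq (Finset.range (G.sup id + 1)) Y : ℝ)) ≤
      K * (1 + ((G.sup id + 1 : ℕ) : ℝ)) := by
    apply mul_le_mul_of_nonneg_left _ hK
    linarith
  have h3 : (b + 2) * Real.log (Y.card : ℝ) ≤ (j : ℝ) * Real.log (Y.card : ℝ) :=
    mul_le_mul_of_nonneg_right hj hL
  nlinarith [h1, h2, h3, hb', hlog]

/-- Pluennecke-Ruzsa: growth of `kA` forces growth of `A + A` -/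
theorem two_of_k {A : Finset ℤ} (hA : A.Nonempty) {k : ℕ} (hk : 1 ≤ k) {c : ℝ} (hc : 0 < c)
    (h : c * (A.card : ℝ) ^ 2 ≤ ((ksum k A).card : ℝ)) :
    c ^ (1 / (k : ℝ)) * (A.card : ℝ) ^ (1 + 1 / (k : ℝ)) ≤ ((ksum 2 A).card : ℝ) := by
  have hpl := Finset.pluennecke_ruzsa_inequality_nsmul_add hA A k
  have hpl' : (((k • A).card : ℕ) : ℝ) ≤ (((A + A).card : ℝ) / (A.card : ℝ)) ^ k * (A.card : ℝ) := by
    have := (NNRat.cast_le (K := ℝ)).2 hpl
    push_cast at this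
    exact this
  have hN : (0 : ℝ) < A.card := by exact_mod_cast Finset.card_pos.2 hA
  have hk0 : (0 : ℝ) < k := by exact_mod_cast hk
  rw [ksum_eq] at h
  have h1 : c * (A.card : ℝ) ≤ (((A + A).card : ℝ) / (A.card : ℝ)) ^ k := by
    have h2 := le_trans h hpl'
    rw [pow_two, ← mul_assoc] at h2
    exact le_of_mul_le_mul_right h2 hN
  have h3 : (c * (A.card : ℝ)) ^ (1 / (k : ℝ)) ≤ ((A + A).card : ℝ) / (A.card : ℝ) := by
    calc (c * (A.card : ℝ)) ^ (1 / (k : ℝ)) ≤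
        ((((A + A).card : ℝ) / (A.card : ℝ)) ^ k) ^ (1 / (k : ℝ)) :=
          Real.rpow_le_rpow (by positivity) h1 (by positivity)
      _ = ((A + A).card : ℝ) / (A.card : ℝ) := by
          rw [one_div]
          exact Real.pow_rpow_inv_natCast (by positivity) (by omega)
  rw [Real.mul_rpow hc.le hN.le, le_div_iff₀ hN] at h3
  rw [ksum_eq, two_nsmul, Real.rpow_add hN, Real.rpow_one]
  calc c ^ (1 / (k : ℝ)) * ((A.card : ℝ) * (A.card : ℝ) ^ (1 / (k : ℝ)))
      = c ^ (1 / (k : ℝ)) * (A.card : ℝ) ^ (1 / (k : ℝ)) * (A.card : ℝ) := by ring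
    _ ≤ _ := h3

/-- from logarithms to powers -/
theorem pow_of_log {N S : ℕ} (hN : 0 < N) (hS : 0 < S) {b K : ℝ}
    (h : b * Real.log (N : ℝ) - K ≤ Real.log (S : ℝ)) :
    Real.exp (-K) * (N : ℝ) ^ b ≤ (S : ℝ) := by
  have hN' : (0 : ℝ) < N := by exact_mod_cast hN
  have hS' : (0 : ℝ) < S := by exact_mod_cast hS
  rw [Real.rpow_def_of_pos hN', ← Real.exp_add, ← Real.exp_log hS']
  apply Real.exp_le_exp.2
  linarith

end Pool.Agent.Helper88.ME
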